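import Pool.Agent.W262.RK.Stm

set_option autoImplicit false

/-!
The largest unlinked set (`COMB`).
-/

namespace Pool.Agent.W108.RK

open Finset Pool.Agent.W262.RK

lemma pair_small : ∀ V W : Finset (Bool × Bool),
    (∀ v ∈ V, ∀ w ∈ W, (v.1 && w.2) = (w.1 && v.2)) → V.card ≤ 2 ∨ W.card ≤ 1 := by
  intro V W h
  by_cases hW : W.card ≤ 1
  · exact Or.inr hW
  left
  rw [not_le, Finset.one_lt_card] at hW
  obtain ⟨w, hw, w', hw', hne⟩ := hW
  have key : ∀ w w' : Bool × Bool, w ≠ w' →
      (univ.filter (fun v : Bool × Bool => (v.1 && w.2) = (w.1 && v.2) ∧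
        (v.1 && w'.2) = (w'.1 && v.2))).card ≤ 2 := by decide
  refine (Finset.card_le_card ?_).trans (key w w' hne)
  intro v hv
  rw [Finset.mem_filter]
  exact ⟨Finset.mem_univ v, h v hv w hw, h v hv w' hw'⟩

theorem comb : Pool.Agent.W262.RK.COMB := by
  intro J _ _ cls n hn U hU
  classical
  set V : Fin 3 → Finset (Bool × Bool) := fun k =>
    (U.filter (fun i => cls i.1 = k)).image (fun i => i.2) with hV
  have hpair : ∀ k l, k ≠ l → (V k).card ≤ 2 ∨ (V l).card ≤ 1 := by
    intro k l hkl
    refine pair_small _ _ ?_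
    intro v hv w hw
    rw [hV] at hv hw
    simp only [Finset.mem_image, Finset.mem_filter] at hv hw
    obtain ⟨i, ⟨hi, hik⟩, rfl⟩ := hv
    obtain ⟨i', ⟨hi', hik'⟩, rfl⟩ := hw
    have h1 := hU i hi i' hi'
    have h2 : cls i.1 ≠ cls i'.1 := by rw [hik, hik']; exact hkl
    have h3 : cls i'.1 ≠ cls i.1 := h2.symm
    unfold LJ at h1
    simp only [h2, h3, ne_eq, not_false_eq_true, decide_true, Bool.true_and] at h1
    exact h1
  have hfour : ∀ k, (V k).card ≤ 4 := by
    intro k
    have := Finset.card_le_univ (V k)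
    simpa using this
  have hclass : ∀ k, (U.filter (fun i => cls i.1 = k)).card ≤ n * (V k).card := by
    intro k
    have h1 : U.filter (fun i => cls i.1 = k) ⊆
        (univ.filter (fun j => cls j = k)) ×ˢ V k := by
      intro i hi
      rw [Finset.mem_product, Finset.mem_filter]
      refine ⟨⟨Finset.mem_univ _, (Finset.mem_filter.mp hi).2⟩, ?_⟩
      rw [hV]
      exact Finset.mem_image_of_mem _ hi
    refine (Finset.card_le_card h1).trans ?_
    rw [Finset.card_product, hn k]
  have hcard : U.card = ∑ k : Fin 3, (U.filter (fun i => cls i.1 = k)).card :=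
    Finset.card_eq_sum_card_fiberwise (fun i _ => Finset.mem_coe.mpr (Finset.mem_univ _))
  rw [hcard, Fin.sum_univ_three]
  have hsum : (V 0).card + (V 1).card + (V 2).card ≤ 6 := by
    have h01 := hpair 0 1 (by decide)
    have h10 := hpair 1 0 (by decide)
    have h02 := hpair 0 2 (by decide)
    have h20 := hpair 2 0 (by decide)
    have h12 := hpair 1 2 (by decide)
    have h21 := hpair 2 1 (by decide)
    have h0 := hfour 0
    have h1 := hfour 1
    have h2 := hfour 2
    omega
  calc _ ≤ n * (V 0).card + n * (V 1).card + n * (V 2).card :=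
        add_le_add (add_le_add (hclass 0) (hclass 1)) (hclass 2)
    _ = n * ((V 0).card + (V 1).card + (V 2).card) := by ring
    _ ≤ n * 6 := Nat.mul_le_mul_left n hsum
    _ = 6 * n := mul_comm _ _

end Pool.Agent.W108.RK
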