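import Pool.Agent.W262.RK.Stm

set_option autoImplicit false
set_option linter.unusedSectionVars false

/-!
Expansion of the symbol conditions into Jacobi symbols (`EXP`).
-/

namespace Pool.Agent.W108.RK

open Finset Pool.Agent.W262.RK

lemma Jr_mul_left (a b : ℤ) (n : ℕ) : Jr (a * b) n = Jr a n * Jr b n := by
  unfold Jr
  rw [jacobiSym.mul_left]
  push_cast
  ring

lemma Jr_mul_right (a : ℤ) {m n : ℕ} (hm : m ≠ 0) (hn : n ≠ 0) :
    Jr a (m * n) = Jr a m * Jr a n := by
  unfold Jr
  rw [jacobiSym.mul_right' a hm hn]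
  push_cast
  ring

lemma Jr_one_left (n : ℕ) : Jr 1 n = 1 := by
  unfold Jr
  rw [jacobiSym.one_left]
  norm_num

lemma Jr_one_right (a : ℤ) : Jr a 1 = 1 := by
  unfold Jr
  rw [jacobiSym.one_right]
  norm_num

lemma Jr_prod_left {ι : Type*} (s : Finset ι) (f : ι → ℤ) (n : ℕ) :
    Jr (∏ i ∈ s, f i) n = ∏ i ∈ s, Jr (f i) n := by
  classical
  induction s using Finset.induction_on with
  | empty => simp [Jr_one_left]
  | insert i s hi ih => rw [Finset.prod_insert hi, Finset.prod_insert hi, Jr_mul_left, ih]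

lemma Jr_prod_right (a : ℤ) (T : Finset ℕ) (hT : ∀ p ∈ T, p ≠ 0) :
    Jr a (∏ p ∈ T, p) = ∏ p ∈ T, Jr a p := by
  classical
  induction T using Finset.induction_on with
  | empty => simp [Jr_one_right]
  | insert i s hi ih =>
    rw [Finset.prod_insert hi, Finset.prod_insert hi, Jr_mul_right, ih]
    · intro p hp
      exact hT p (Finset.mem_insert_of_mem hp)
    · exact hT i (Finset.mem_insert_self _ _)
    · exact Finset.prod_ne_zero_iff.mpr fun p hp => hT p (Finset.mem_insert_of_mem hp)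

lemma Jr_primeFactors (a : ℤ) {w : ℕ} (hw : Squarefree w) :
    ∏ p ∈ w.primeFactors, Jr a p = Jr a w := by
  rw [← Jr_prod_right, Nat.prod_primeFactors_of_squarefree hw]
  intro p hp
  exact (Nat.prime_of_mem_primeFactors hp).ne_zero

lemma gw_mul (w : ℝ) (c : ℕ) {m n : ℕ} (h : m.Coprime n) :
    gw w c (m * n) = gw w c m * gw w c n := by
  unfold gw
  rw [Nat.Coprime.primeFactors_mul h, Finset.prod_union (Nat.Coprime.disjoint_primeFactors h)]

lemma gw_half (c n : ℕ) : gw 1 c n * (1 / 2 : ℝ) ^ n.primeFactors.card = gw (1 / 2) c n := by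
  unfold gw
  rw [← Finset.prod_const, ← Finset.prod_mul_distrib]
  refine Finset.prod_congr rfl fun p _ => ?_
  ring

lemma PP_squarefree (z y : ℕ) : Squarefree (PP z y) := by
  classical
  unfold PP
  have h : ∀ T : Finset ℕ, (∀ p ∈ T, p.Prime) → Squarefree (∏ p ∈ T, p) := by
    intro T hT
    induction T using Finset.induction_on with
    | empty => simp
    | insert i s hi ih =>
      rw [Finset.prod_insert hi, Nat.squarefree_mul_iff]
      have hi' := hT i (Finset.mem_insert_self _ _)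
      have hs' := fun p hp => hT p (Finset.mem_insert_of_mem hp)
      refine ⟨Nat.Coprime.prod_right fun p hp => ?_, hi'.squarefree, ih hs'⟩
      rw [Nat.coprime_primes hi' (hs' p hp)]
      rintro rfl
      exact hi hp
  refine h _ fun p hp => ?_
  unfold PS at hp
  exact (Finset.mem_filter.mp hp).2

lemma PP_ne_zero (z y : ℕ) : PP z y ≠ 0 := (PP_squarefree z y).ne_zero

lemma lt_of_dvd_PP {z y p : ℕ} (hp : p.Prime) (h : p ∣ PP z y) : z < p := by
  unfold PP at h
  rw [Prime.dvd_finsetProd_iff hp.prime] at h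
  obtain ⟨q, hq, hpq⟩ := h
  unfold PS at hq
  rw [Finset.mem_filter, Finset.mem_Ioc] at hq
  have := (Nat.prime_dvd_prime_iff_eq hp hq.2).mp hpq
  omega

lemma mem_Tup {ι : Type} [Fintype ι] [DecidableEq ι] {z y : ℕ} {d : ι → ℕ} :
    d ∈ Tup ι z y ↔ (∀ i, d i ∣ PP z y) ∧ ∀ i j, i ≠ j → (d i).Coprime (d j) := by
  classical
  unfold Tup
  rw [Finset.mem_filter, Fintype.mem_piFinset]
  constructor
  · rintro ⟨h1, h2⟩
    exact ⟨fun i => (Nat.mem_divisors.mp (h1 i)).1, h2⟩
  · rintro ⟨h1, h2⟩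
    exact ⟨fun i => Nat.mem_divisors.mpr ⟨h1 i, PP_ne_zero z y⟩, h2⟩

lemma sqf_of_mem {ι : Type} [Fintype ι] [DecidableEq ι] {z y : ℕ} {d : ι → ℕ}
    (h : d ∈ Tup ι z y) (i : ι) : Squarefree (d i) :=
  Squarefree.squarefree_of_dvd ((mem_Tup.mp h).1 i) (PP_squarefree z y)

/-- structure of two divisors of a squarefree number -/
lemma two_div {s t w : ℕ} (hs : Squarefree s) (ht : t ∣ s) (hw : w ∣ s) :
    ∃ g a b e : ℕ, Nat.gcd t w = g ∧ t = g * a ∧ w = g * b ∧ s = g * a * (b * e) ∧ 0 < g ∧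
      0 < a ∧ 0 < b ∧ 0 < e := by
  have hs0 := hs.ne_zero
  obtain ⟨a, b, hab, ha, hb⟩ := Nat.exists_coprime t w
  set g := Nat.gcd t w with hg
  have hws : Squarefree w := Squarefree.squarefree_of_dvd hw hs
  have hgb : Nat.Coprime b g := by
    rw [hb] at hws
    exact ((Nat.squarefree_mul_iff).mp hws).1
  obtain ⟨m, hm⟩ := ht
  have h1 : b ∣ t * m := by
    rw [← hm]
    exact (Dvd.intro _ hb.symm).trans hw
  rw [ha] at h1
  have h2 : Nat.Coprime b (a * g) := Nat.Coprime.mul_right hab.symm hgb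
  obtain ⟨e, he⟩ := h2.dvd_of_dvd_mul_left h1
  have hs' : s = g * a * (b * e) := by rw [hm, ha, he]; ring
  refine ⟨g, a, b, e, rfl, by rw [mul_comm]; exact ha, by rw [mul_comm]; exact hb, hs', ?_⟩
  have h3 : g * a * (b * e) ≠ 0 := by rw [← hs']; exact hs0
  simp only [mul_ne_zero_iff] at h3
  exact ⟨Nat.pos_of_ne_zero h3.1.1, Nat.pos_of_ne_zero h3.1.2, Nat.pos_of_ne_zero h3.2.1,
    Nat.pos_of_ne_zero h3.2.2⟩

section Maps

variable {J : Type} [Fintype J] [DecidableEq J]

/-- the product of the four parts -/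
def tS (d : J × Bool × Bool → ℕ) (j : J) : ℕ :=
  d (j, true, true) * d (j, true, false) * (d (j, false, true) * d (j, false, false))

/-- the chosen part -/
def tT (d : J × Bool × Bool → ℕ) (j : J) : ℕ := d (j, true, true) * d (j, true, false)

/-- the part with a symbol -/
def tW (d : J × Bool × Bool → ℕ) (j : J) : ℕ := d (j, true, true) * d (j, false, true)

/-- the four parts -/
def tD (s τ w : J → ℕ) (i : J × Bool × Bool) : ℕ :=
  if i.2.1 then (if i.2.2 then Nat.gcd (τ i.1) (w i.1) else τ i.1 / Nat.gcd (τ i.1) (w i.1))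
  else (if i.2.2 then w i.1 / Nat.gcd (τ i.1) (w i.1)
    else s i.1 / (τ i.1 * (w i.1 / Nat.gcd (τ i.1) (w i.1))))

lemma tD_eq {s τ w : J → ℕ} {j : J} (hs : Squarefree (s j)) (ht : τ j ∣ s j) (hw : w j ∣ s j) :
    tD s τ w (j, true, true) * tD s τ w (j, true, false) = τ j ∧
    tD s τ w (j, true, true) * tD s τ w (j, false, true) = w j ∧
    tD s τ w (j, true, true) * tD s τ w (j, true, false) *
      (tD s τ w (j, false, true) * tD s τ w (j, false, false)) = s j := by
  obtain ⟨g, a, b, e, hg, h1, h2, h3, hg0, ha0, hb0, he0⟩ := two_div hs ht hw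
  have e1 : tD s τ w (j, true, true) = g := by simp [tD, hg]
  have e2 : tD s τ w (j, true, false) = a := by
    simp only [tD, if_true, Bool.false_eq_true, if_false]
    rw [hg, h1, Nat.mul_div_cancel_left _ hg0]
  have e3 : tD s τ w (j, false, true) = b := by
    simp only [tD, if_true, Bool.false_eq_true, if_false]
    rw [hg, h2, Nat.mul_div_cancel_left _ hg0]
  have e4 : tD s τ w (j, false, false) = e := by
    simp only [tD, Bool.false_eq_true, if_false]
    rw [hg, h2, Nat.mul_div_cancel_left _ hg0, h1, h3, ← mul_assoc]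
    exact Nat.mul_div_cancel_left _ (by positivity)
  rw [e1, e2, e3, e4]
  exact ⟨h1.symm, h2.symm, h3.symm⟩

lemma tS_dvd {z y : ℕ} {d : J × Bool × Bool → ℕ} (hd : d ∈ Tup (J × Bool × Bool) z y) (j : J) :
    tS d j ∣ PP z y := by
  obtain ⟨h1, h2⟩ := mem_Tup.mp hd
  have hne : ∀ a b a' b' : Bool, (a, b) ≠ (a', b') →
      (d (j, a, b)).Coprime (d (j, a', b')) := by
    intro a b a' b' h
    refine h2 _ _ ?_
    intro h'
    exact h (congrArg Prod.snd h')
  unfold tS
  refine Nat.Coprime.mul_dvd_of_dvd_of_dvd ?_ ?_ ?_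
  · refine Nat.Coprime.mul_left ?_ ?_
    · exact Nat.Coprime.mul_right (hne _ _ _ _ (by simp)) (hne _ _ _ _ (by simp))
    · exact Nat.Coprime.mul_right (hne _ _ _ _ (by simp)) (hne _ _ _ _ (by simp))
  · exact Nat.Coprime.mul_dvd_of_dvd_of_dvd (hne _ _ _ _ (by simp)) (h1 _) (h1 _)
  · exact Nat.Coprime.mul_dvd_of_dvd_of_dvd (hne _ _ _ _ (by simp)) (h1 _) (h1 _)

lemma tS_mem {z y : ℕ} {d : J × Bool × Bool → ℕ} (hd : d ∈ Tup (J × Bool × Bool) z y) :
    tS d ∈ Tup J z y := by
  obtain ⟨h1, h2⟩ := mem_Tup.mp hd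
  refine mem_Tup.mpr ⟨fun j => tS_dvd hd j, fun i j hij => ?_⟩
  have hne : ∀ a b a' b' : Bool, (d (i, a, b)).Coprime (d (j, a', b')) := by
    intro a b a' b'
    refine h2 _ _ ?_
    intro h'
    exact hij (congrArg Prod.fst h')
  unfold tS
  refine Nat.Coprime.mul_left (Nat.Coprime.mul_left ?_ ?_) (Nat.Coprime.mul_left ?_ ?_)
  all_goals
    refine Nat.Coprime.mul_right (Nat.Coprime.mul_right ?_ ?_) (Nat.Coprime.mul_right ?_ ?_)
  all_goals exact hne _ _ _ _

lemma tT_dvd (d : J × Bool × Bool → ℕ) (j : J) : tT d j ∣ tS d j := by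
  unfold tT tS
  exact Dvd.intro _ rfl

lemma tW_dvd (d : J × Bool × Bool → ℕ) (j : J) : tW d j ∣ tS d j := by
  unfold tW tS
  exact ⟨d (j, true, false) * d (j, false, false), by ring⟩

lemma tD_mem {z y : ℕ} {s τ w : J → ℕ} (hs : s ∈ Tup J z y) (ht : ∀ j, τ j ∣ s j)
    (hw : ∀ j, w j ∣ s j) : tD s τ w ∈ Tup (J × Bool × Bool) z y := by
  obtain ⟨h1, h2⟩ := mem_Tup.mp hs
  have hdvd : ∀ i : J × Bool × Bool, tD s τ w i ∣ s i.1 := by
    rintro ⟨j, a, b⟩
    obtain ⟨e1, e2, e3⟩ := tD_eq (sqf_of_mem hs j) (ht j) (hw j)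
    rcases a with _ | _ <;> rcases b with _ | _
    · exact ⟨tD s τ w (j, true, true) * tD s τ w (j, true, false) * tD s τ w (j, false, true), by
        conv_lhs => rw [show s (j, false, false).1 = s j from rfl, ← e3]
        ring⟩
    · exact ⟨tD s τ w (j, true, true) * tD s τ w (j, true, false) * tD s τ w (j, false, false), by
        conv_lhs => rw [show s (j, false, true).1 = s j from rfl, ← e3]
        ring⟩
    · exact ⟨tD s τ w (j, true, true) * (tD s τ w (j, false, true) * tD s τ w (j, false, false)), by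
        conv_lhs => rw [show s (j, true, false).1 = s j from rfl, ← e3]
        ring⟩
    · exact ⟨tD s τ w (j, true, false) * (tD s τ w (j, false, true) * tD s τ w (j, false, false)), by
        conv_lhs => rw [show s (j, true, true).1 = s j from rfl, ← e3]
        ring⟩
  refine mem_Tup.mpr ⟨fun i => (hdvd i).trans (h1 i.1), ?_⟩
  rintro ⟨j, a, b⟩ ⟨j', a', b'⟩ hne
  by_cases hj : j = j'
  · subst hj
    obtain ⟨e1, e2, e3⟩ := tD_eq (sqf_of_mem hs j) (ht j) (hw j)
    have hsq := sqf_of_mem hs j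
    rw [← e3, Nat.squarefree_mul_iff, Nat.squarefree_mul_iff, Nat.squarefree_mul_iff] at hsq
    obtain ⟨c1, ⟨c2, -, -⟩, ⟨c3, -, -⟩⟩ := hsq
    have d1 := Nat.Coprime.coprime_mul_right (Nat.Coprime.coprime_mul_right_right c1)
    have d2 := Nat.Coprime.coprime_mul_right (Nat.Coprime.coprime_mul_left_right c1)
    have d3 := Nat.Coprime.coprime_mul_left (Nat.Coprime.coprime_mul_right_right c1)
    have d4 := Nat.Coprime.coprime_mul_left (Nat.Coprime.coprime_mul_left_right c1)
    rcases a with _ | _ <;> rcases b with _ | _ <;> rcases a' with _ | _ <;>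
      rcases b' with _ | _ <;> first
        | exact absurd rfl hne
        | assumption
        | (apply Nat.Coprime.symm; assumption)
  · exact Nat.Coprime.of_dvd (hdvd (j, a, b)) (hdvd (j', a', b')) (h2 j j' hj)

/-- the product of the symbols at the primes dividing `w` -/
noncomputable def EE (cls : J → Fin 3) (κ : J → ℤ) (τ : J → ℕ) (j : J) (w : ℕ) : ℝ :=
  ∏ p ∈ w.primeFactors, Jr ((if p ∣ τ j then κ j else 1) * (uu cls τ j : ℤ)) p

lemma prod_one_add' (g : ℕ → ℝ) {n : ℕ} (hn : Squarefree n) :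
    ∏ p ∈ n.primeFactors, (1 + g p) = ∑ d ∈ n.divisors, ∏ p ∈ d.primeFactors, g p := by
  have h := (ArithmeticFunction.IsMultiplicative.prodPrimeFactors
    g).prodPrimeFactors_one_add_of_squarefree hn
  have e1 : ∏ p ∈ n.primeFactors, (1 + g p) =
      ∏ p ∈ n.primeFactors, (1 + ArithmeticFunction.prodPrimeFactors g p) := by
    refine Finset.prod_congr rfl fun p hp => ?_
    have hp' := Nat.prime_of_mem_primeFactors hp
    rw [ArithmeticFunction.prodPrimeFactors_apply hp'.ne_zero, hp'.primeFactors,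
      Finset.prod_singleton]
  rw [e1, h]
  refine Finset.sum_congr rfl fun d hd => ?_
  rw [ArithmeticFunction.prodPrimeFactors_apply (Nat.pos_of_mem_divisors hd).ne']

/-- the symbols are `1` or `-1` -/
lemma sym_pm {z y : ℕ} (cls : J → Fin 3) {κ : J → ℤ} (hκ : ∀ j, κ j ≠ 0)
    (hκz : ∀ j, (κ j).natAbs ≤ z) {s τ : J → ℕ} (hs : s ∈ Tup J z y) (ht : ∀ j, τ j ∣ s j)
    {j : J} {p : ℕ} (hp : p.Prime) (hps : p ∣ s j) :
    jacobiSym ((if p ∣ τ j then κ j else 1) * (uu cls τ j : ℤ)) p = 1 ∨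
      jacobiSym ((if p ∣ τ j then κ j else 1) * (uu cls τ j : ℤ)) p = -1 := by
  obtain ⟨h1, h2⟩ := mem_Tup.mp hs
  apply jacobiSym.eq_one_or_neg_one
  have hz : z < p := lt_of_dvd_PP hp (hps.trans (h1 j))
  have hu : ¬ p ∣ uu cls τ j := by
    intro h
    unfold uu at h
    rw [Prime.dvd_finsetProd_iff hp.prime] at h
    obtain ⟨l, hl, hpl⟩ := h
    rw [Finset.mem_filter] at hl
    have hlj : l ≠ j := by
      rintro rfl
      exact hl.2 rfl
    have h3 := h2 l j hlj
    exact hp.one_lt.ne' (Nat.dvd_one.mp (h3 ▸ Nat.dvd_gcd (hpl.trans (ht l)) hps))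
  have hk : ¬ p ∣ (if p ∣ τ j then κ j else 1 : ℤ).natAbs := by
    split_ifs
    · intro h
      have h3 := Nat.le_of_dvd (Int.natAbs_pos.mpr (hκ j)) h
      have h4 := hκz j
      omega
    · intro h
      exact hp.one_lt.ne' (Nat.dvd_one.mp h)
  have h3 : ¬ p ∣ ((if p ∣ τ j then κ j else 1) * (uu cls τ j : ℤ)).natAbs := by
    rw [Int.natAbs_mul, Int.natAbs_natCast, hp.dvd_mul]
    rintro (h | h)
    · exact hk h
    · exact hu h
  have h4 := (hp.coprime_iff_not_dvd.mpr h3).symm
  exact h4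

/-- expansion of `NN` -/
lemma NN_eq {z y : ℕ} (cls : J → Fin 3) {κ : J → ℤ} (hκ : ∀ j, κ j ≠ 0)
    (hκz : ∀ j, (κ j).natAbs ≤ z) {s : J → ℕ} (hs : s ∈ Tup J z y) (c : ℕ) :
    (NN cls κ s : ℝ) * ∏ j, gw 1 c (s j) =
      ∑ τ ∈ Fintype.piFinset (fun j => (s j).divisors),
        ∑ w ∈ Fintype.piFinset (fun j => (s j).divisors),
          ∏ j, (gw (1 / 2) c (s j) * EE cls κ τ j (w j)) := by
  classical
  have h1 : (NN cls κ s : ℝ) = ∑ τ ∈ Fintype.piFinset (fun j => (s j).divisors),
      if Cond cls κ s τ then (1 : ℝ) else 0 := by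
    unfold NN
    rw [Finset.card_filter]
    push_cast
    exact Finset.sum_congr rfl fun τ _ => by congr
  rw [h1, Finset.sum_mul]
  refine Finset.sum_congr rfl fun τ hτ => ?_
  have ht : ∀ j, τ j ∣ s j := fun j => (Nat.mem_divisors.mp (Fintype.mem_piFinset.mp hτ j)).1
  have h2 : (if Cond cls κ s τ then (1 : ℝ) else 0) = ∏ j, ∏ p ∈ (s j).primeFactors,
      ((1 + Jr ((if p ∣ τ j then κ j else 1) * (uu cls τ j : ℤ)) p) * (1 / 2)) := by
    have h3 : ∀ j, ∀ p ∈ (s j).primeFactors,
        (1 + Jr ((if p ∣ τ j then κ j else 1) * (uu cls τ j : ℤ)) p) * (1 / 2) =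
        if jacobiSym ((if p ∣ τ j then κ j else 1) * (uu cls τ j : ℤ)) p = 1 then 1 else 0 := by
      intro j p hp
      have h4 := sym_pm cls hκ hκz hs ht (Nat.prime_of_mem_primeFactors hp)
        (Nat.dvd_of_mem_primeFactors hp)
      unfold Jr
      rcases h4 with h4 | h4
      · rw [h4, if_pos rfl]; norm_num
      · rw [h4, if_neg (by norm_num)]; norm_num
    rw [Finset.prod_congr rfl fun j _ => Finset.prod_congr rfl (h3 j)]
    simp only [Finset.prod_ite_zero, Finset.prod_const_one]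
    refine if_congr ?_ rfl rfl
    unfold Cond
    constructor
    · rintro ⟨_, h5⟩ j _ p hp
      exact h5 j p (Nat.prime_of_mem_primeFactors hp) (Nat.dvd_of_mem_primeFactors hp)
    · intro h5
      exact ⟨ht, fun j p hp hps => h5 j (Finset.mem_univ j) p
        (Nat.mem_primeFactors.mpr ⟨hp, hps, (sqf_of_mem hs j).ne_zero⟩)⟩
  rw [h2]
  have h6 : ∀ j, ∏ p ∈ (s j).primeFactors,
      ((1 + Jr ((if p ∣ τ j then κ j else 1) * (uu cls τ j : ℤ)) p) * (1 / 2)) =
      (∑ w ∈ (s j).divisors, EE cls κ τ j w) * (1 / 2 : ℝ) ^ (s j).primeFactors.card := by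
    intro j
    rw [Finset.prod_mul_distrib, Finset.prod_const, prod_one_add' _ (sqf_of_mem hs j)]
    rfl
  rw [Finset.prod_congr rfl fun j _ => h6 j, ← Finset.prod_mul_distrib]
  have h7 : ∀ j, (∑ w ∈ (s j).divisors, EE cls κ τ j w) * (1 / 2 : ℝ) ^ (s j).primeFactors.card *
      gw 1 c (s j) = ∑ w ∈ (s j).divisors, gw (1 / 2) c (s j) * EE cls κ τ j w := by
    intro j
    rw [← Finset.mul_sum, ← gw_half]
    ring
  rw [Finset.prod_congr rfl fun j _ => h7 j, Finset.prod_univ_sum]

/-- the value of the symbols -/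
lemma EE_eq {z y : ℕ} (cls : J → Fin 3) (κ : J → ℤ) {d : J × Bool × Bool → ℕ}
    (hd : d ∈ Tup (J × Bool × Bool) z y) (j : J) :
    EE cls κ (tT d) j (tW d j) = Jr (uu cls (tT d) j : ℤ) (tW d j) * Jr (κ j) (d (j, true, true)) := by
  have hsq : Squarefree (tW d j) :=
    Squarefree.squarefree_of_dvd (tW_dvd d j) (sqf_of_mem (tS_mem hd) j)
  have hsqd := fun i => sqf_of_mem hd i
  obtain ⟨h1, h2⟩ := mem_Tup.mp hd
  have hne : ∀ a b a' b' : Bool, (a, b) ≠ (a', b') →
      (d (j, a, b)).Coprime (d (j, a', b')) := by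
    intro a b a' b' h
    refine h2 _ _ ?_
    intro h'
    exact h (congrArg Prod.snd h')
  unfold EE
  have e1 : ∀ p ∈ (tW d j).primeFactors,
      Jr ((if p ∣ tT d j then κ j else 1) * (uu cls (tT d) j : ℤ)) p =
      Jr (if p ∣ tT d j then κ j else 1) p * Jr (uu cls (tT d) j : ℤ) p :=
    fun p _ => Jr_mul_left _ _ _
  rw [Finset.prod_congr rfl e1, Finset.prod_mul_distrib, Jr_primeFactors _ hsq, mul_comm]
  congr 1
  have hco : (d (j, true, true)).Coprime (d (j, false, true)) := hne _ _ _ _ (by simp)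
  have e2 : (tW d j).primeFactors = (d (j, true, true)).primeFactors ∪
      (d (j, false, true)).primeFactors := by
    unfold tW
    rw [Nat.Coprime.primeFactors_mul hco]
  rw [e2, Finset.prod_union (Nat.Coprime.disjoint_primeFactors hco)]
  have e3 : ∏ p ∈ (d (j, true, true)).primeFactors, Jr (if p ∣ tT d j then κ j else 1) p =
      Jr (κ j) (d (j, true, true)) := by
    rw [← Jr_primeFactors _ (hsqd _)]
    refine Finset.prod_congr rfl fun p hp => ?_
    rw [if_pos]
    exact (Nat.dvd_of_mem_primeFactors hp).trans (Dvd.intro _ rfl)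
  have e4 : ∏ p ∈ (d (j, false, true)).primeFactors, Jr (if p ∣ tT d j then κ j else 1) p = 1 := by
    refine Finset.prod_eq_one fun p hp => ?_
    rw [if_neg, Jr_one_left]
    intro h
    have hp' := Nat.prime_of_mem_primeFactors hp
    have hpd := Nat.dvd_of_mem_primeFactors hp
    have hco2 : (tT d j).Coprime (d (j, false, true)) := by
      unfold tT
      exact Nat.Coprime.mul_left (hne _ _ _ _ (by simp)) (hne _ _ _ _ (by simp))
    exact hp'.one_lt.ne' (Nat.dvd_one.mp (hco2 ▸ Nat.dvd_gcd h hpd))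
  rw [e3, e4, mul_one]

/-- the value of a term -/
lemma term_eq {z y : ℕ} (cls : J → Fin 3) (κ : J → ℤ) (c : ℕ) {d : J × Bool × Bool → ℕ}
    (hd : d ∈ Tup (J × Bool × Bool) z y) :
    ∏ j, (gw (1 / 2) c (tS d j) * EE cls κ (tT d) j (tW d j)) =
      (∏ i, gw (1 / 2) c (d i)) * Sym (LJ cls) (κJ κ) d := by
  classical
  have hd0 : ∀ i, d i ≠ 0 := fun i => (sqf_of_mem hd i).ne_zero
  obtain ⟨h1, h2⟩ := mem_Tup.mp hd
  have hgw : ∀ j, gw (1 / 2) c (tS d j) = gw (1 / 2) c (d (j, true, true)) *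
      gw (1 / 2) c (d (j, true, false)) * (gw (1 / 2) c (d (j, false, true)) *
      gw (1 / 2) c (d (j, false, false))) := by
    intro j
    have hne : ∀ a b a' b' : Bool, (a, b) ≠ (a', b') →
        (d (j, a, b)).Coprime (d (j, a', b')) := by
      intro a b a' b' h
      refine h2 _ _ ?_
      intro h'
      exact h (congrArg Prod.snd h')
    unfold tS
    rw [gw_mul, gw_mul, gw_mul]
    · exact hne _ _ _ _ (by simp)
    · exact hne _ _ _ _ (by simp)
    · refine Nat.Coprime.mul_left ?_ ?_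
      · exact Nat.Coprime.mul_right (hne _ _ _ _ (by simp)) (hne _ _ _ _ (by simp))
      · exact Nat.Coprime.mul_right (hne _ _ _ _ (by simp)) (hne _ _ _ _ (by simp))
  unfold Pool.Agent.W262.RK.Sym
  rw [Finset.prod_mul_distrib, Finset.prod_congr rfl fun j _ => EE_eq cls κ hd j,
    Finset.prod_mul_distrib]
  have e1 : ∏ j, gw (1 / 2) c (tS d j) = ∏ i, gw (1 / 2) c (d i) := by
    rw [Fintype.prod_prod_type]
    refine Finset.prod_congr rfl fun j _ => ?_
    rw [Fintype.prod_prod_type, Fintype.prod_bool, Fintype.prod_bool, Fintype.prod_bool, hgw]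
  have e2 : ∏ j, Jr (κ j) (d (j, true, true)) = ∏ i, Jr (κJ κ i) (d i) := by
    rw [Fintype.prod_prod_type]
    refine Finset.prod_congr rfl fun j _ => ?_
    rw [Fintype.prod_prod_type, Fintype.prod_bool, Fintype.prod_bool, Fintype.prod_bool]
    simp [κJ, Jr_one_left]
  have e3 : ∏ j, Jr (uu cls (tT d) j : ℤ) (tW d j) =
      ∏ i, ∏ i', if LJ cls i i' then Jr (d i) (d i') else 1 := by
    rw [Finset.prod_comm, Fintype.prod_prod_type]
    refine Finset.prod_congr rfl fun j _ => ?_
    have e4 : Jr (uu cls (tT d) j : ℤ) (tW d j) =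
        ∏ l, if cls l ≠ cls j then Jr (tT d l : ℤ) (tW d j) else 1 := by
      unfold uu
      push_cast
      rw [Jr_prod_left, Finset.prod_filter]
    rw [e4]
    have e5 : ∀ ab : Bool × Bool, ∏ i : J × Bool × Bool,
        (if LJ cls i (j, ab) then Jr (d i) (d (j, ab)) else 1) =
        ∏ l, ∏ ab' : Bool × Bool,
          (if LJ cls (l, ab') (j, ab) then Jr (d (l, ab')) (d (j, ab)) else 1) := by
      intro ab
      rw [Fintype.prod_prod_type]
    rw [Finset.prod_congr rfl fun ab _ => e5 ab, Finset.prod_comm]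
    refine Finset.prod_congr rfl fun l _ => ?_
    rw [Fintype.prod_prod_type]
    simp only [Fintype.prod_bool, Fintype.prod_prod_type, LJ]
    by_cases hlj : cls l = cls j
    · simp [hlj]
    · have hT : Jr (tT d l : ℤ) (tW d j) = (Jr (d (l, true, true)) (d (j, true, true)) *
          Jr (d (l, true, true)) (d (j, false, true))) *
          (Jr (d (l, true, false)) (d (j, true, true)) *
          Jr (d (l, true, false)) (d (j, false, true))) := by
        unfold tT tW
        push_cast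
        rw [Jr_mul_left, Jr_mul_right _ (hd0 _) (hd0 _), Jr_mul_right _ (hd0 _) (hd0 _)]
      simp only [hlj, not_false_eq_true, ne_eq, decide_true,
        Bool.and_self, Bool.and_true, Bool.and_false,
        Bool.false_eq_true, if_true, if_false, mul_one]
      rw [hT]
      ring
  rw [e1, e2, e3]

end Maps

theorem exp_id : Pool.Agent.W262.RK.EXP := by
  intro J _ _ cls κ c z y hz hκ hκz
  classical
  rw [Finset.sum_congr rfl fun s hs => NN_eq cls hκ hκz hs c]
  have h1 : ∀ s : J → ℕ, ∑ τ ∈ Fintype.piFinset (fun j => (s j).divisors),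
      ∑ w ∈ Fintype.piFinset (fun j => (s j).divisors),
        ∏ j, (gw (1 / 2) c (s j) * EE cls κ τ j (w j)) =
      ∑ x ∈ Fintype.piFinset (fun j => (s j).divisors) ×ˢ
        Fintype.piFinset (fun j => (s j).divisors),
        ∏ j, (gw (1 / 2) c (s j) * EE cls κ x.1 j (x.2 j)) := by
    intro s
    rw [Finset.sum_product]
  rw [Finset.sum_congr rfl fun s _ => h1 s, Finset.sum_sigma']
  symm
  refine Finset.sum_bij' (fun d _ => ⟨tS d, (tT d, tW d)⟩)
    (fun x _ => tD x.1 x.2.1 x.2.2) ?_ ?_ ?_ ?_ ?_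
  · intro d hd
    rw [Finset.mem_sigma, Finset.mem_product, Fintype.mem_piFinset, Fintype.mem_piFinset]
    have h2 := tS_mem hd
    exact ⟨h2, fun j => Nat.mem_divisors.mpr ⟨tT_dvd d j, (sqf_of_mem h2 j).ne_zero⟩,
      fun j => Nat.mem_divisors.mpr ⟨tW_dvd d j, (sqf_of_mem h2 j).ne_zero⟩⟩
  · intro x hx
    rw [Finset.mem_sigma, Finset.mem_product, Fintype.mem_piFinset, Fintype.mem_piFinset] at hx
    exact tD_mem hx.1 (fun j => (Nat.mem_divisors.mp (hx.2.1 j)).1)
      (fun j => (Nat.mem_divisors.mp (hx.2.2 j)).1)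
  · intro d hd
    obtain ⟨h2, h3⟩ := mem_Tup.mp hd
    have hd0 : ∀ i, 0 < d i := fun i => Nat.pos_of_ne_zero (sqf_of_mem hd i).ne_zero
    funext i
    obtain ⟨j, a, b⟩ := i
    have hco : (d (j, true, false)).Coprime (d (j, false, true)) := h3 _ _ (by simp)
    have hg : Nat.gcd (tT d j) (tW d j) = d (j, true, true) := by
      unfold tT tW
      rw [Nat.gcd_mul_left, hco, mul_one]
    have hb : tW d j / d (j, true, true) = d (j, false, true) := by
      unfold tW
      exact Nat.mul_div_cancel_left _ (hd0 _)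
    have ha : tT d j / d (j, true, true) = d (j, true, false) := by
      unfold tT
      exact Nat.mul_div_cancel_left _ (hd0 _)
    have he : tS d j / (tT d j * d (j, false, true)) = d (j, false, false) := by
      unfold tS tT
      rw [← mul_assoc]
      exact Nat.mul_div_cancel_left _ (Nat.mul_pos (Nat.mul_pos (hd0 _) (hd0 _)) (hd0 _))
    rcases a with _ | _ <;> rcases b with _ | _
    · simp only [tD, Bool.false_eq_true, if_false, hg, hb]
      exact he
    · simp only [tD, Bool.false_eq_true, if_false, if_true, hg]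
      exact hb
    · simp only [tD, Bool.false_eq_true, if_false, if_true, hg]
      exact ha
    · simp only [tD, if_true]
      exact hg
  · rintro ⟨s, τ, w⟩ hx
    rw [Finset.mem_sigma, Finset.mem_product, Fintype.mem_piFinset, Fintype.mem_piFinset] at hx
    obtain ⟨hs, ht, hw⟩ := hx
    simp only at hs ht hw
    have key := fun j => tD_eq (sqf_of_mem hs j) (Nat.mem_divisors.mp (ht j)).1
      (Nat.mem_divisors.mp (hw j)).1
    have e1 : tS (tD s τ w) = s := funext fun j => (key j).2.2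
    have e2 : tT (tD s τ w) = τ := funext fun j => (key j).1
    have e3 : tW (tD s τ w) = w := funext fun j => (key j).2.1
    simp only [e1, e2, e3]
  · intro d hd
    exact (term_eq cls κ c hd).symm

end Pool.Agent.W108.RK
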