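import Pool.Agent.W537.TT.Trd

/-! Rosenlicht's lemma: the general part. -/

set_option autoImplicit false

namespace Pool.Agent.W108.RK

open Pool.Agent.W537.TT Polynomial

section gen

variable {K L : Type} [Field K] [Field L] [Algebra K L]

theorem ld_mul (D : Derivation K L L) {a b : L} (ha : a ≠ 0) (hb : b ≠ 0) :
    D (a * b) / (a * b) = D a / a + D b / b := by
  rw [Derivation.leibniz]
  simp only [smul_eq_mul]
  field_simp
  ring

theorem ld_div (D : Derivation K L L) {a b : L} (ha : a ≠ 0) (hb : b ≠ 0) :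
    D (a / b) / (a / b) = D a / a - D b / b := by
  have h1 := ld_mul D (div_ne_zero ha hb) hb
  rw [div_mul_cancel₀ a hb] at h1
  rw [h1]
  ring

/-- logarithmic derivative of a product -/
theorem ld_prod (D : Derivation K L L) {ι : Type} (s : Finset ι) (f : ι → L)
    (hf : ∀ i ∈ s, f i ≠ 0) :
    D (∏ i ∈ s, f i) / (∏ i ∈ s, f i) = ∑ i ∈ s, D (f i) / f i := by
  classical
  induction s using Finset.induction_on with
  | empty => simp
  | insert a s ha ih =>
    have h2 : (∏ i ∈ s, f i) ≠ 0 :=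
      Finset.prod_ne_zero_iff.2 fun i hi => hf i (Finset.mem_insert_of_mem hi)
    rw [Finset.prod_insert ha, Finset.sum_insert ha,
      ← ih fun i hi => hf i (Finset.mem_insert_of_mem hi),
      ld_mul D (hf a (Finset.mem_insert_self _ _)) h2]

theorem ld_pow (D : Derivation K L L) {a : L} (ha : a ≠ 0) (n : ℕ) :
    D (a ^ n) / a ^ n = n * (D a / a) := by
  have h := ld_prod D (Finset.range n) (fun _ => a) (fun _ _ => ha)
  rw [Finset.prod_const, Finset.card_range, Finset.sum_const, Finset.card_range,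
    nsmul_eq_mul] at h
  exact h

/-- the maximal ideal at `t = 0` -/
def R0 (D : Derivation K L L) (t : L) : Set L :=
  {x | ∃ p q : (constants D)[X], q.eval 0 ≠ 0 ∧ x * aeval t q = t * aeval t p}

theorem R0_zero (D : Derivation K L L) (t : L) : (0 : L) ∈ R0 D t :=
  ⟨0, 1, by simp, by simp⟩

theorem R0_add {D : Derivation K L L} {t x y : L} (hx : x ∈ R0 D t) (hy : y ∈ R0 D t) :
    x + y ∈ R0 D t := by
  obtain ⟨p, q, h1, h2⟩ := hx
  obtain ⟨p', q', h3, h4⟩ := hy
  refine ⟨p * q' + p' * q, q * q', by rw [eval_mul]; exact mul_ne_zero h1 h3, ?_⟩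
  rw [map_mul, map_add, map_mul, map_mul]
  linear_combination aeval t q' * h2 + aeval t q * h4

theorem R0_smul {D : Derivation K L L} {t x : L} (c : constants D) (hx : x ∈ R0 D t) :
    (c : L) * x ∈ R0 D t := by
  obtain ⟨p, q, h1, h2⟩ := hx
  refine ⟨C c * p, q, h1, ?_⟩
  rw [map_mul, aeval_C]
  have h3 : algebraMap (constants D) L c = (c : L) := rfl
  rw [h3]
  linear_combination (c : L) * h2

theorem R0_sum {D : Derivation K L L} {t : L} {ι : Type} (s : Finset ι) (f : ι → L)
    (hf : ∀ i ∈ s, f i ∈ R0 D t) : ∑ i ∈ s, f i ∈ R0 D t := by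
  classical
  induction s using Finset.induction_on with
  | empty => simpa using R0_zero D t
  | insert a s ha ih =>
    rw [Finset.sum_insert ha]
    exact R0_add (hf a (Finset.mem_insert_self _ _))
      (ih fun i hi => hf i (Finset.mem_insert_of_mem hi))

variable [CharZero L]

theorem transc (D : Derivation K L L) {t : L} (ht : D t ≠ 0) : Transcendental (constants D) t :=
  fun h => ht (der_alg_constants D h)

theorem R0_const {D : Derivation K L L} {t : L} (ht : D t ≠ 0) (c : constants D)
    (hc : (c : L) ∈ R0 D t) : c = 0 := by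
  obtain ⟨p, q, h1, h2⟩ := hc
  have h3 : aeval t (C c * q - X * p) = 0 := by
    rw [map_sub, map_mul, map_mul, aeval_C, aeval_X]
    have h3 : algebraMap (constants D) L c = (c : L) := rfl
    rw [h3, h2, sub_self]
  have h4 := transcendental_iff.1 (transc D ht) _ h3
  have h5 := congrArg (Polynomial.eval 0) h4
  rw [eval_sub, eval_mul, eval_mul, eval_C, eval_X, zero_mul, sub_zero, eval_zero] at h5
  exact (mul_eq_zero.1 h5).resolve_right h1

theorem ld_poly (D : Derivation K L L) {t : L} (htt : D t = t) (ht0 : t ≠ 0)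
    (r : (constants D)[X]) (hr : r ≠ 0) :
    ∃ m : ℤ, D (aeval t r) / aeval t r - m ∈ R0 D t := by
  have ht : D t ≠ 0 := by rw [htt]; exact ht0
  have htr := transcendental_iff.1 (transc D ht)
  obtain ⟨q, hq1, hq2⟩ := Polynomial.exists_eq_pow_rootMultiplicity_mul_and_not_dvd r hr 0
  rw [C_0, sub_zero] at hq1 hq2
  set n := rootMultiplicity 0 r with hn
  have hq0 : q ≠ 0 := by
    rintro rfl
    exact hq2 (dvd_zero _)
  have hqe : q.eval 0 ≠ 0 := by
    intro h
    apply hq2
    have h1 := (dvd_iff_isRoot (p := q) (a := 0)).2 h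
    rwa [C_0, sub_zero] at h1
  have hqt : aeval t q ≠ 0 := fun h => hq0 (htr _ h)
  have hd : D (aeval t q) = aeval t (derivative q) * t := by
    have h1 := (derK D).map_aeval q t
    have h2 : derK D t = t := htt
    rw [h2, smul_eq_mul] at h1
    exact h1
  refine ⟨n, derivative q, q, hqe, ?_⟩
  rw [hq1, map_mul, map_pow, aeval_X, ld_mul D (pow_ne_zero _ ht0) hqt, ld_pow D ht0, htt,
    div_self ht0, hd]
  push_cast
  field_simp
  ring

theorem ld_mem (D : Derivation K L L) {t : L} (htt : D t = t) (ht0 : t ≠ 0) {x : L}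
    (hx : x ∈ IntermediateField.adjoin (constants D) {t}) (hx0 : x ≠ 0) :
    ∃ m : ℤ, D x / x - m ∈ R0 D t := by
  obtain ⟨r, s, rfl⟩ := (IntermediateField.mem_adjoin_simple_iff _ _).1 hx
  have hr0 : aeval t r ≠ 0 := fun h => hx0 (by rw [h, zero_div])
  have hs0 : aeval t s ≠ 0 := fun h => hx0 (by rw [h, div_zero])
  have hr : r ≠ 0 := fun h => hr0 (by rw [h, map_zero])
  have hs : s ≠ 0 := fun h => hs0 (by rw [h, map_zero])
  obtain ⟨a, ha⟩ := ld_poly D htt ht0 r hr
  obtain ⟨b, hb⟩ := ld_poly D htt ht0 s hs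
  refine ⟨a - b, ?_⟩
  have h1 := R0_add ha (R0_smul (-1) hb)
  rw [ld_div D hr0 hs0]
  convert h1 using 1
  push_cast
  ring

end gen

section norm

variable {K L : Type} [Field K] [CharZero K] [Field L] [IsAlgClosed L] [Algebra K L]

theorem norm_part (F : IntermediateField K L) [Algebra.IsAlgebraic F L] (D : Derivation K L L)
    (hcomm : ∀ τ : L ≃ₐ[F] L, ∀ x, D (τ x) = τ (D x)) {m : ℕ} (e : Fin m → K) (u : Fin m → L)
    (hu : ∀ i, u i ≠ 0) (h : ∑ i, algebraMap K L (e i) * (D (u i) / u i) = 0) (k : Fin m)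
    (hk1 : D (u k) = u k) :
    ∃ N : Fin m → L, (∀ i, N i ∈ F) ∧ (∀ i, N i ≠ 0) ∧
      ∑ i, algebraMap K L (e i) * (D (N i) / N i) = 0 ∧ ∃ n : ℕ, 0 < n ∧ D (N k) / N k = n := by
  classical
  have : CharZero F := charZero_of_injective_algebraMap (algebraMap K F).injective
  have : CharZero L := charZero_of_injective_algebraMap (algebraMap K L).injective
  set M : IntermediateField F L := IntermediateField.adjoin F (Set.range u) with hM
  have hfd : FiniteDimensional F M := by
    refine IntermediateField.finiteDimensional_adjoin fun x _ => ?_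
    exact (Algebra.IsAlgebraic.isAlgebraic x).isIntegral
  have hMa : Algebra.IsAlgebraic M L := inferInstance
  let v : Fin m → M := fun i => ⟨u i, IntermediateField.subset_adjoin _ _ ⟨i, rfl⟩⟩
  have hτ : ∀ σ : M →ₐ[F] L, ∃ τ : L ≃ₐ[F] L, ∀ x : M, τ (x : L) = σ x := by
    intro σ
    obtain ⟨φ, hφ⟩ := IsAlgClosed.surjective_domRestrict_of_isAlgebraic (K := F) (M := L) (E := L)
      (L := M) σ
    refine ⟨AlgEquiv.ofBijective φ (Algebra.IsAlgebraic.algHom_bijective φ), fun x => ?_⟩
    rw [← hφ]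
    rfl
  choose τ hτ using hτ
  let N : Fin m → L := fun i => ∏ σ : M →ₐ[F] L, σ (v i)
  have hσ0 : ∀ (σ : M →ₐ[F] L) i, σ (v i) ≠ 0 := by
    intro σ i h0
    have h1 : v i = 0 := (map_eq_zero σ).1 h0
    exact hu i (congrArg Subtype.val h1)
  have hld : ∀ i, D (N i) / N i = ∑ σ : M →ₐ[F] L, τ σ (D (u i) / u i) := by
    intro i
    rw [ld_prod D _ _ fun σ _ => hσ0 σ i]
    refine Finset.sum_congr rfl fun σ _ => ?_
    rw [← hτ, hcomm, ← map_div₀]
  refine ⟨N, fun i => ?_, fun i => Finset.prod_ne_zero_iff.2 fun σ _ => hσ0 σ i, ?_, ?_⟩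
  · have h1 := Algebra.norm_eq_prod_embeddings F L (v i)
    have h2 : N i = algebraMap F L (Algebra.norm F (v i)) := h1.symm
    rw [h2]
    exact (Algebra.norm F (v i)).2
  · simp only [hld, Finset.mul_sum]
    rw [Finset.sum_comm]
    refine Finset.sum_eq_zero fun σ _ => ?_
    have h1 : ∀ i, algebraMap K L (e i) * τ σ (D (u i) / u i) =
        τ σ (algebraMap K L (e i) * (D (u i) / u i)) := by
      intro i
      rw [map_mul]
      congr 1
      exact (((τ σ).restrictScalars K).commutes (e i)).symm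
    rw [Finset.sum_congr rfl fun i _ => h1 i, ← map_sum, h, map_zero]
  · refine ⟨Fintype.card (M →ₐ[F] L), Fintype.card_pos_iff.2 ⟨M.val⟩, ?_⟩
    rw [hld, hk1, div_self (hu k)]
    simp

end norm

section core

variable {K L : Type} [Field K] [CharZero K] [Field L] [IsAlgClosed L] [Algebra K L]

omit [IsAlgClosed L] in
theorem comm (B : Set L) (hB : ∀ x : L, IsAlgebraic (IntermediateField.adjoin K B) x)
    (D : Derivation K L L) (t : L) (htB : t ∈ B) (hDt : D t = t) (hDB : ∀ b ∈ B, b ≠ t → D b = 0)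
    (τ : L ≃ₐ[IntermediateField.adjoin K B] L) (x : L) : D (τ x) = τ (D x) := by
  have : CharZero L := charZero_of_injective_algebraMap (algebraMap K L).injective
  let τ' : L ≃ₐ[K] L := τ.restrictScalars K
  let E : Derivation K L L := Derivation.mk'
    (τ'.symm.toLinearMap ∘ₗ D.toLinearMap ∘ₗ τ'.toLinearMap - D.toLinearMap) (by
      intro a b
      have h0 : ∀ z, (τ'.symm.toLinearMap ∘ₗ D.toLinearMap ∘ₗ τ'.toLinearMap - D.toLinearMap) z =
        τ'.symm (D (τ' z)) - D z := fun z => rfl
      rw [h0, h0, h0, map_mul, D.leibniz, D.leibniz]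
      simp only [smul_eq_mul, map_add, map_mul, AlgEquiv.symm_apply_apply]
      ring)
  have hE : ∀ z, E z = τ'.symm (D (τ' z)) - D z := fun z => rfl
  have hfix : ∀ b ∈ B, τ' b = b := fun b hb =>
    τ.commutes (⟨b, IntermediateField.subset_adjoin _ _ hb⟩ : IntermediateField.adjoin K B)
  have hEB : ∀ b ∈ B, E b = 0 := by
    intro b hb
    rw [hE, hfix b hb]
    by_cases hbt : b = t
    · rw [hbt, hDt, sub_eq_zero, AlgEquiv.symm_apply_eq]
      exact (hfix t htB).symm
    · rw [hDB b hb hbt, map_zero, sub_zero]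
  have h1 := der_alg_adjoin E hEB (hB x)
  rw [hE, sub_eq_zero, AlgEquiv.symm_apply_eq] at h1
  exact h1

theorem core (B : Set L) (hB : ∀ x : L, IsAlgebraic (IntermediateField.adjoin K B) x)
    (D : Derivation K L L) (t : L) (htB : t ∈ B) (hDt : D t = t) (ht0 : t ≠ 0)
    (hDB : ∀ b ∈ B, b ≠ t → D b = 0) {m : ℕ} (e : Fin m → K) (u : Fin m → L)
    (hu : ∀ i, u i ≠ 0) (h : ∑ i, algebraMap K L (e i) * (D (u i) / u i) = 0) (k : Fin m)
    (hk : u k = t) : ∃ n : Fin m → ℤ, n k ≠ 0 ∧ ∑ i, e i * (n i : K) = 0 := by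
  have : CharZero L := charZero_of_injective_algebraMap (algebraMap K L).injective
  have hDt0 : D t ≠ 0 := by rw [hDt]; exact ht0
  have halg : Algebra.IsAlgebraic (IntermediateField.adjoin K B) L := ⟨hB⟩
  obtain ⟨N, hN1, hN2, hN3, a, ha, hN4⟩ := norm_part (IntermediateField.adjoin K B) D
    (comm B hB D t htB hDt hDB) e u hu h k (by rw [hk, hDt])
  have hle : IntermediateField.adjoin K B ≤
      (IntermediateField.adjoin (constants D) {t}).restrictScalars K := by
    rw [IntermediateField.adjoin_le_iff]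
    intro b hb
    rw [SetLike.mem_coe, IntermediateField.mem_restrictScalars]
    by_cases hbt : b = t
    · rw [hbt]
      exact IntermediateField.mem_adjoin_simple_self _ _
    · exact (IntermediateField.adjoin (constants D) {t}).algebraMap_mem
        (⟨b, hDB b hb hbt⟩ : constants D)
  have hmem : ∀ i, ∃ n : ℤ, D (N i) / N i - n ∈ R0 D t := fun i =>
    ld_mem D hDt ht0 (IntermediateField.mem_restrictScalars _ |>.1 (hle (hN1 i))) (hN2 i)
  choose n hn using hmem
  refine ⟨n, ?_, ?_⟩
  · intro h0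
    have h1 := hn k
    rw [hN4, h0, Int.cast_zero, sub_zero] at h1
    have h2 := R0_const hDt0 (a : constants D) (by exact_mod_cast h1)
    have h3 : ((a : constants D) : L) = 0 := by rw [h2]; rfl
    have h4 : (a : L) = 0 := by exact_mod_cast h3
    rw [Nat.cast_eq_zero] at h4
    omega
  · have h1 : ∑ i, algebraMap K L (e i) * (D (N i) / N i - n i) ∈ R0 D t := by
      refine R0_sum _ _ fun i _ => ?_
      exact R0_smul (algebraMap K (constants D) (e i)) (hn i)
    have h2 : ∑ i, algebraMap K L (e i) * (D (N i) / N i - n i) =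
        ((-(algebraMap K (constants D) (∑ i, e i * (n i : K))) : constants D) : L) := by
      have h3 : ((-(algebraMap K (constants D) (∑ i, e i * (n i : K))) : constants D) : L) =
          -(algebraMap K L (∑ i, e i * (n i : K))) := rfl
      rw [h3, map_sum]
      simp only [mul_sub, Finset.sum_sub_distrib, hN3, zero_sub, map_mul, map_intCast]
    rw [h2] at h1
    have h4 := R0_const hDt0 _ h1
    rw [neg_eq_zero, map_eq_zero] at h4
    exact h4

end core

end Pool.Agent.W108.RK
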