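import Pool.Agent.W519.E.Stm
import Pool.Agent.W108.RK.Ros0

/-! RK-ROS: Rosenlicht's lemma. -/

set_option autoImplicit false

namespace Pool.Agent.W108.RK.ROS

open Pool.Agent.W519.E

theorem t : Pool.Agent.W519.E.ROS := by
  intro m e he u hu h k
  by_contra hk
  have hKb : Algebra.IsAlgebraic ℚ Kb := algebraicClosure.isAlgebraic ℚ ℂ
  have hkK : Transcendental Kb (u k) := by
    intro h1
    exact hk (h1.restrictScalars ℚ)
  have hai : AlgebraicIndependent Kb ((↑) : ({u k} : Set ℂ) → ℂ) := by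
    rw [algebraicIndependent_unique_type_iff]
    exact hkK
  obtain ⟨B, hB1, hB2⟩ := exists_isTranscendenceBasis_superset hai
  have htB : u k ∈ B := hB1 rfl
  classical
  obtain ⟨D1, hD1⟩ := Pool.Agent.H598R2.exists_derivation hB2 (⟨u k, htB⟩ : B)
  have hD1t : D1 (u k) = 1 := by
    have h1 := hD1 ⟨u k, htB⟩
    rw [if_pos rfl] at h1
    exact h1
  have hD1B : ∀ b ∈ B, b ≠ u k → D1 b = 0 := by
    intro b hb hbt
    have h1 := hD1 ⟨b, hb⟩
    rw [if_neg fun h2 => hbt (congrArg Subtype.val h2)] at h1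
    exact h1
  have hB3 : ∀ x : ℂ, IsAlgebraic (IntermediateField.adjoin Kb B) x := by
    have h1 := hB2.isAlgebraic_field
    rw [Subtype.range_coe] at h1
    exact h1.isAlgebraic
  obtain ⟨n, hn1, hn2⟩ := core B hB3 (u k • D1) (u k) htB
    (by rw [Derivation.smul_apply, hD1t, smul_eq_mul, mul_one]) (hu k)
    (fun b hb hbt => by rw [Derivation.smul_apply, hD1B b hb hbt, smul_zero]) e u hu
    (h ((u k • D1).restrictScalars ℤ)) k rfl
  apply hn1
  have h2 := Fintype.linearIndependent_iff.1 he (fun i => (n i : ℚ)) (by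
    rw [← hn2]
    refine Finset.sum_congr rfl fun i _ => ?_
    rw [Algebra.smul_def, mul_comm]
    congr 1) k
  exact_mod_cast h2

end Pool.Agent.W108.RK.ROS
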